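import Pool.Agent.Work.MP_91103f_lv.Interface

/-!
# Folded developing maps (MP_91103f_co): definitions and block statements

Proofs: see `BLUEPRINT.md`.
-/

namespace Pool.TriFold

open Pool.Agent.Work.MP_91103f_co Pool.TriLev

open Classical

noncomputable section

/-- the sign of a face: `-1` for the faces in `N`, which are developed with reversed
orientation -/
def sg {V : Type} (N : Set (Finset V)) (f : Finset V) : ZMod 6 := if f ∈ N then -1 else 1

/-- `D` assigns directions (multiples of 60 degrees) to the edges at `x`, turning by `60` degrees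
in each face and turning back at the edges between a face of `N` and a face outside `N`. -/
def IsFrame {V : Type} (F N : Set (Finset V)) (x : V) (D : V → ZMod 6) : Prop :=
  (∀ a b, T3 F x a b → D b - D a = 1 ∨ D b - D a = -1) ∧
  (∀ a b c, T3 F x a b → T3 F x b c → a ≠ c →
    (D c - D b) * sg N {x, b, c} = (D b - D a) * sg N {x, a, b})

/-- The directions at the two ends of the edge `x y` fit together. -/
def Compat {V : Type} (F : Set (Finset V)) (x y : V) (D D' : V → ZMod 6) : Prop :=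
  D' x = D y + 3 ∧ ∀ w, T3 F x y w → D' w - D' x = -(D w - D y)

/-- the condition on the degrees: `deg - 2 (number of faces of N)` is a nonzero multiple of six -/
def FoldCond {V : Type} (G : SimpleGraph V) (F N : Set (Finset V)) : Prop :=
  ∀ x, ∃ m : ℤ, m ≠ 0 ∧
    ((G.neighborSet x).ncard : ℤ) - 2 * ({f | f ∈ F ∧ f ∈ N ∧ x ∈ f}.ncard : ℤ) = 6 * m

/-- the unit vectors of the triangular lattice -/
def e6 (d : ZMod 6) : ℤ × ℤ :=
  if d = 0 then (1, 0) else if d = 1 then (0, 1) else if d = 2 then (-1, 1)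
  else if d = 3 then (-1, 0) else if d = 4 then (0, -1) else (1, -1)

/-- FR0: there is a frame at every vertex. -/
def Stmt_FR0 : Prop :=
  ∀ {V : Type} {G : SimpleGraph V} {F N : Set (Finset V)}, Tri V G F → FoldCond G F N →
    ∀ (x a b : V) (d s : ZMod 6), T3 F x a b → (s = 1 ∨ s = -1) →
      ∃ D, IsFrame F N x D ∧ D a = d ∧ D b = d + s

/-- FR1: a frame can be continued along an edge. -/
def Stmt_FR1 : Prop :=
  ∀ {V : Type} {G : SimpleGraph V} {F N : Set (Finset V)}, Tri V G F → FoldCond G F N →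
    ∀ (x y : V) (D : V → ZMod 6), G.Adj x y → IsFrame F N x D →
      ∃ D', IsFrame F N y D' ∧ Compat F x y D D'

/-- FR2: the triangle rule. -/
def Stmt_FR2 : Prop :=
  ∀ {V : Type} {G : SimpleGraph V} {F N : Set (Finset V)}, Tri V G F →
    ∀ (w x y : V) (Dw Dx Dy : V → ZMod 6), T3 F w x y → IsFrame F N w Dw → IsFrame F N x Dx →
      IsFrame F N y Dy → Compat F w x Dw Dx → Compat F w y Dw Dy → Compat F x y Dx Dy

/-- IND: induction on the level. -/
def Stmt_IND : Prop :=
  ∀ {V : Type} {G : SimpleGraph V} {F : Set (Finset V)}, Tri V G F →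
    ∀ (r : V) (R : V → V → Prop), (∀ x y, G.Adj x y → R x y → R y x) →
      (∀ w x y, T3 F w x y → R w x → R w y → R x y) →
      (∀ x, x ≠ r → ∃ p, Ch G r p x ∧ R p x) → ∀ x y, G.Adj x y → R x y

/-- FR4: compatible frames everywhere. -/
def Stmt_FR4 : Prop :=
  ∀ {V : Type} {G : SimpleGraph V} {F N : Set (Finset V)}, Tri V G F → FoldCond G F N →
    ∃ D : V → V → ZMod 6, (∀ x, IsFrame F N x (D x)) ∧
      ∀ x y, G.Adj x y → Compat F x y (D x) (D y)

/-- FR5: the developing map. -/
def Stmt_FR5 : Prop :=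
  ∀ {V : Type} {G : SimpleGraph V} {F N : Set (Finset V)}, Tri V G F →
    ∀ (r : V) (D : V → V → ZMod 6), (∀ x, IsFrame F N x (D x)) →
      (∀ x y, G.Adj x y → Compat F x y (D x) (D y)) →
      ∃ π : V → ℤ × ℤ, π r = (0, 0) ∧ ∀ x y, G.Adj x y → π y = π x + e6 (D x y)

/-- FR6: all six directions occur. -/
def Stmt_FR6 : Prop :=
  ∀ {V : Type} {G : SimpleGraph V} {F N : Set (Finset V)}, Tri V G F → FoldCond G F N →
    ∀ (x : V) (D : V → ZMod 6), IsFrame F N x D → ∀ d : ZMod 6, ∃ y, G.Adj x y ∧ D y = d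

/-- FR7: lifting self-avoiding walks. -/
def Stmt_FR7 : Prop :=
  ∀ {V : Type} {G : SimpleGraph V}, (∀ x, (G.neighborSet x).Finite) →
    ∀ π : V → ℤ × ℤ, (∀ x p, T6.Adj (π x) p → ∃ y, G.Adj x y ∧ π y = p) →
      ∀ (n : ℕ) (x : V), (PL T6 (π x) n).ncard ≤ (PL G x n).ncard

/-- The theorem. -/
def Stmt_FOLD : Prop :=
  ∀ (V : Type) (G : SimpleGraph V) (F N : Set (Finset V)), Tri V G F → FoldCond G F N →
    ∀ (v : V) (n : ℕ), (PL T6 (0, 0) n).ncard ≤ (PL G v n).ncard

end

end Pool.TriFold
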